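import Pool.Agent.WAT.Stmts
import Pool.Agent.Helper31_ATZ.GIZ

/-!
# Squad WAT, row TGI: integrality of the twisted sums, helper46
-/

set_option autoImplicit false

open scoped BigOperators

noncomputable section

namespace Pool.Agent.PP.TV.H46

open Pool.Agent.Helper51_AWC Pool.Agent.Helper79_WRA Pool.Agent.PP Pool.Agent.PP.KF
open Pool.Agent.PP.K9 Pool.Agent.PP.K9.H97 Pool.Agent.PP.H75 Pool.Agent.PP.T3 Pool.Agent.PP.T2
open Pool.Agent.PP.T5 Pool.Agent.PP.TB Pool.Agent.PP.TV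
open Pool.Agent.PP.TB.H31 (class_sum ram_int int_of_mul AI mem_AI)

attribute [local instance] Ideal.Quotient.field

/-- TGI -/
theorem tgi (zcp : TB.ZcpStmt) (zin : TB.ZinStmt) : TgiStmt := by
  intro ℓ hfact M _ hM G _ _ e V γ b hZ lam hlam χ hχ
  classical
  have hp : ℓ.Prime := Fact.out
  have := Fintype.ofFinite G
  have := Fintype.ofFinite V
  obtain ⟨c1, c2, c3, c4, c5, c6, c7⟩ := zcp ℓ M hM G e V V γ b hZ
  obtain ⟨F, hF⟩ : ∃ F : V → ℂ, F = fun w : V =>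
    lam w * ((Nat.card V : ℂ) * mm M ℓ (Cu (w : G)) w (b w) χ χ) := ⟨_, rfl⟩
  have hFe : ∀ w : V, F w = lam w * ((Nat.card V : ℂ) * mm M ℓ (Cu (w : G)) w (b w) χ χ) := by
    intro w
    rw [hF]
  have hWp : IsPGroup ℓ V := hZ.tp.1
  obtain ⟨a0, ha0⟩ := hWp.exists_card_eq
  have ha : 0 < a0 + 1 := Nat.succ_pos _
  have hpow' : ∀ w : V, w ^ ℓ ^ (a0 + 1) = 1 := by
    intro w
    have h1 : w ^ Nat.card V = 1 := pow_card_eq_one'
    rw [ha0] at h1
    rw [pow_succ, pow_mul, h1, one_pow]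
  have hpow : ∀ w : V, (w : G) ^ ℓ ^ (a0 + 1) = 1 := by
    intro w
    rw [← Subgroup.coe_pow, hpow' w, Subgroup.coe_one]
  have hζ := Complex.isPrimitiveRoot_exp (ℓ ^ (a0 + 1)) (Nat.pow_pos hp.pos).ne'
  generalize Complex.exp (2 * Real.pi * Complex.I / ((ℓ ^ (a0 + 1) : ℕ) : ℂ)) = ζ at hζ
  have hk : ∀ w : V, ∃ k : ℕ, lam w = ζ ^ k := by
    intro w
    have h1 : lam w ^ ℓ ^ (a0 + 1) = 1 := by
      rw [← map_pow, hpow' w, map_one]
    have : NeZero (ℓ ^ (a0 + 1)) := ⟨(Nat.pow_pos hp.pos).ne'⟩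
    obtain ⟨i, -, hi⟩ := hζ.eq_pow_of_pow_eq_one h1
    exact ⟨i, hi.symm⟩
  choose k hk using hk
  have hin : ∀ w : V, ∃ m : ℕ → ℤ, ∀ j : ℕ, ¬ ℓ ∣ j →
      F (w ^ j) = ∑ i ∈ Finset.range (ℓ ^ (a0 + 1)), (m i : ℂ) * ζ ^ ((i + k w) * j) := by
    intro w
    obtain ⟨m, hm⟩ := zin ℓ M hM G e V V γ b hZ w w.2 (a0 + 1) ha (hpow w) ζ hζ χ hχ χ hχ
    refine ⟨m, fun j hj => ?_⟩
    rw [hFe, Subgroup.coe_pow, hm j hj, map_pow, hk w, Finset.mul_sum]
    refine Finset.sum_congr rfl fun i _ => ?_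
    rw [← pow_mul, add_mul, pow_add]
    ring
  choose m hm using hin
  -- the values are algebraic integers
  have hζi : IsIntegral ℤ ζ := hζ.isIntegral (Nat.pow_pos hp.pos)
  have hAI : ∀ w : V, F w ∈ TB.H31.AI := by
    intro w
    have h1 := hm w 1 (fun h => hp.one_lt.ne' (Nat.dvd_one.1 h))
    rw [pow_one] at h1
    rw [h1]
    refine AddSubgroup.sum_mem _ fun i _ => mem_AI.2 ?_
    exact (isIntegral_algebraMap (R := ℤ) (A := ℂ) (x := m w i)).mul (hζi.pow _)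
  -- the orbits
  let s : Setoid V :=
    { r := fun x y => ∃ t ∈ Tg V γ, (y : G) = t * (x : G) * t⁻¹
      iseqv :=
        { refl := fun x => ⟨1, (Tg V γ).one_mem, by simp⟩
          symm := by
            rintro x y ⟨t, ht, h⟩
            exact ⟨t⁻¹, (Tg V γ).inv_mem ht, by rw [h]; group⟩
          trans := by
            rintro x y z ⟨t, ht, h⟩ ⟨t', ht', h'⟩
            exact ⟨t' * t, (Tg V γ).mul_mem ht' ht, by rw [h', h]; group⟩ } }
  obtain ⟨S, hS, hSe⟩ := class_sum s (fun w : V => cz V V γ (w : G)) F (iz V V γ)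
    (by
      rintro x y ⟨t, ht, h⟩
      show cz V V γ (x : G) = cz V V γ (y : G)
      rw [h, (c1 x x.2 t ht).2.1])
    (by
      rintro x y ⟨t, ht, h⟩
      rw [hFe, hFe, hlam t ht x y h, h, (c1 x x.2 t ht).2.2 χ hχ χ hχ])
    (by
      intro x
      rw [← c3 x x.2]
      show cz V V γ (x : G) * _ = _
      congr 1
      have h1 : {y : G | ∃ t ∈ Tg V γ, y = t * (x : G) * t⁻¹} =
          (fun y : V => (y : G)) '' {y : V | s.r x y} := by
        ext y
        constructor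
        · rintro ⟨t, ht, h⟩
          have hy : y ∈ V := by
            rw [h]
            exact hZ.nrm t ht x x.2
          exact ⟨⟨y, hy⟩, ⟨t, ht, h⟩, rfl⟩
        · rintro ⟨y', ⟨t, ht, h⟩, rfl⟩
          exact ⟨t, ht, h⟩
      rw [h1, Set.ncard_image_of_injective _ Subtype.coe_injective]) TB.H31.AI hAI
  -- the sum
  have hPw : (Nat.card V : ℂ) * ∑ᶠ v : V, (cz V V γ (v : G) : ℂ) * lam v *
      mm M ℓ (Cu (v : G)) v (b v) χ χ = ∑ w : V, (cz V V γ (w : G) : ℂ) * F w := by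
    rw [finsum_eq_sum_of_fintype, Finset.mul_sum]
    refine Finset.sum_congr rfl fun w _ => ?_
    rw [hFe]
    ring
  -- rationality
  have hj : ∀ j : ℕ, ¬ ℓ ∣ j → ∑ w : V, (cz V V γ (w : G) : ℂ) * F w =
      ∑ w : V, (cz V V γ (w : G) : ℂ) * F (w ^ j) := by
    intro j hj
    have hco : (Nat.card V).Coprime j := by
      rw [ha0]
      exact Nat.Coprime.pow_left _ ((Nat.Prime.coprime_iff_not_dvd hp).2 hj)
    symm
    refine Fintype.sum_equiv (powCoprime hco) _ _ fun w => ?_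
    rw [powCoprime_apply, Subgroup.coe_pow, (c2 w w.2 j hj).2.2]
  have hrat : ∃ q : ℤ, ((((Finset.range (ℓ ^ (a0 + 1))).filter (fun j => ¬ ℓ ∣ j)).card *
      iz V V γ : ℕ) : ℂ) * S = q := by
    have h1 : ∀ w : V, ∃ q : ℤ, ∑ j ∈ (Finset.range (ℓ ^ (a0 + 1))).filter (fun j => ¬ ℓ ∣ j),
        F (w ^ j) = q := by
      intro w
      choose r hr using fun i => ram_int hp ha hζ.pow_eq_one i
      refine ⟨∑ i ∈ Finset.range (ℓ ^ (a0 + 1)), m w i * r (i + k w), ?_⟩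
      rw [Finset.sum_congr rfl fun j hj => hm w j (Finset.mem_filter.1 hj).2, Finset.sum_comm]
      push_cast
      refine Finset.sum_congr rfl fun i _ => ?_
      rw [← hr (i + k w), Finset.mul_sum]
    choose q hq using h1
    refine ⟨∑ w : V, (cz V V γ (w : G) : ℤ) * q w, ?_⟩
    have h2 : ((((Finset.range (ℓ ^ (a0 + 1))).filter (fun j => ¬ ℓ ∣ j)).card *
        iz V V γ : ℕ) : ℂ) * S =
        ∑ j ∈ (Finset.range (ℓ ^ (a0 + 1))).filter (fun j => ¬ ℓ ∣ j),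
          ∑ w : V, (cz V V γ (w : G) : ℂ) * F (w ^ j) := by
      rw [← Finset.sum_congr rfl fun j hj' => hj j (Finset.mem_filter.1 hj').2, Finset.sum_const,
        nsmul_eq_mul, hSe]
      push_cast
      ring
    rw [h2, Finset.sum_comm]
    push_cast
    refine Finset.sum_congr rfl fun w _ => ?_
    rw [← hq w, Finset.mul_sum]
  obtain ⟨q, hq⟩ := hrat
  have hpos : 0 < ((Finset.range (ℓ ^ (a0 + 1))).filter (fun j => ¬ ℓ ∣ j)).card * iz V V γ := by
    refine Nat.mul_pos (Finset.card_pos.2 ⟨1, ?_⟩) c4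
    rw [Finset.mem_filter, Finset.mem_range]
    exact ⟨Nat.one_lt_pow (Nat.succ_ne_zero _) hp.one_lt,
      fun h => hp.one_lt.ne' (Nat.dvd_one.1 h)⟩
  obtain ⟨n, hn⟩ := int_of_mul (mem_AI.1 hS) hpos hq
  refine ⟨n, ?_⟩
  rw [hPw, hSe, hn]

end Pool.Agent.PP.TV.H46
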